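import Pool.Agent.Lib.MP_a55e6f_al.Uni.Interfaces

/-!
# MP_a55e6f_al (S02584), module IN: minimal generating tuples have independent leading forms
-/

set_option autoImplicit false

universe u

open MvPolynomial

attribute [local instance 100] LieRing.ofAssociativeRing

namespace Pool.Agent.A55u.H66

/-! ## Elementary facts on degrees -/

section basic
variable {k M : Type u} [Field k]

theorem comp_coeff (z : M → ℕ) (n : ℕ) (b : MonoidAlgebra k M) (w : M) :
    (comp z n b).coeff w = if z w = n then b.coeff w else 0 := by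
  rw [comp, proj_coeff]
  split_ifs <;> rfl

theorem hom_comp (z : M → ℕ) (n : ℕ) (b : MonoidAlgebra k M) : Hom z n (comp z n b) := by
  intro w hw
  by_contra h
  exact hw (by rw [comp_coeff, if_neg h])

theorem comp_of_hom {z : M → ℕ} {n : ℕ} {b : MonoidAlgebra k M} (h : Hom z n b) :
    comp z n b = b := by
  ext w
  rw [comp_coeff]
  split_ifs with hw
  · rfl
  · by_contra h'
    exact hw (h w fun h0 => h' h0.symm)

theorem le_degOf (z : M → ℕ) {b : MonoidAlgebra k M} {w : M} (h : b.coeff w ≠ 0) :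
    z w ≤ degOf z b :=
  Finset.le_sup (f := z) (Finsupp.mem_support_iff.2 h)

theorem degOf_le {z : M → ℕ} {b : MonoidAlgebra k M} {n : ℕ}
    (h : ∀ w, b.coeff w ≠ 0 → z w ≤ n) : degOf z b ≤ n :=
  Finset.sup_le fun w hw => h w (Finsupp.mem_support_iff.1 hw)

theorem degOf_lt {z : M → ℕ} {b : MonoidAlgebra k M} {n : ℕ} (hn : 0 < n)
    (h : ∀ w, b.coeff w ≠ 0 → z w ≤ n) (h0 : comp z n b = 0) : degOf z b < n := by
  have h1 : degOf z b ≤ n - 1 := by
    refine degOf_le fun w hw => ?_
    have h2 := h w hw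
    have h3 : z w ≠ n := by
      intro h3
      apply hw
      have := congrArg (fun c => c.coeff w) h0
      simpa [comp_coeff, h3] using this
    omega
  omega

theorem Hom.add {z : M → ℕ} {n : ℕ} {a b : MonoidAlgebra k M} (ha : Hom z n a)
    (hb : Hom z n b) : Hom z n (a + b) := (homSub k z n).add_mem ha hb

theorem Hom.smul {z : M → ℕ} {n : ℕ} {a : MonoidAlgebra k M} (c : k) (ha : Hom z n a) :
    Hom z n (c • a) := (homSub k z n).smul_mem c ha

theorem Hom.mul [Monoid M] {z : M → ℕ} (hz : IsAdd z) {m n : ℕ} {a b : MonoidAlgebra k M}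
    (ha : Hom z m a) (hb : Hom z n b) : Hom z (m + n) (a * b) := by
  classical
  intro w hw
  have h1 := MonoidAlgebra.support_coeff_mul_subset a b (Finsupp.mem_support_iff.2 hw)
  obtain ⟨x, hx, y, hy, rfl⟩ := Finset.mem_mul.1 h1
  rw [hz.map_mul, ha x (Finsupp.mem_support_iff.1 hx), hb y (Finsupp.mem_support_iff.1 hy)]

theorem Hom.one [Monoid M] {z : M → ℕ} (hz : IsAdd z) : Hom z 0 (1 : MonoidAlgebra k M) := by
  classical
  intro w hw
  rw [MonoidAlgebra.one_def, MonoidAlgebra.coeff_single, Finsupp.single_apply] at hw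
  split_ifs at hw with h
  · rw [← h, hz.map_one]
  · exact absurd rfl hw

theorem isAdd_zd (Y : Type u) : IsAdd (zd : FreeMonoid (Y ⊕ Y) → ℕ) where
  map_one := by simp [zd]
  map_mul a b := by simp [zd]

theorem hom_ev {k Y J : Type u} [Field k] {τ : J → BA k Y} (hτ : ∀ j, Hom zd 0 (τ j))
    (p : FA k J) : Hom zd 0 (ev τ p) := by
  refine MonoidAlgebra.induction_on (motive := fun p => Hom zd 0 (ev τ p)) p ?_ ?_ ?_
  · intro w
    have h1 : ev τ ((MonoidAlgebra.of k (FreeMonoid J)) w) = FreeMonoid.lift τ w := by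
      simp [ev]
    rw [h1]
    induction w using FreeMonoid.inductionOn' with
    | one => simpa using Hom.one (isAdd_zd Y)
    | of_mul x xs ih =>
      rw [map_mul, FreeMonoid.lift_eval_of]
      have h2 := Hom.mul (isAdd_zd Y) (hτ x) (ih (by simp [ev]))
      simpa using h2
  · intro x y hx hy
    rw [map_add]
    exact Hom.add hx hy
  · intro r x hx
    rw [map_smul]
    exact Hom.smul r hx

theorem dg_pos {k J : Type u} [Field k] {u : FA k J} (h : 0 < dg u) : u ≠ 0 := by
  rintro rfl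
  simp [dg] at h

end basic

section main
variable {k Y C J : Type u} [Field k] [LieRing C] [LieAlgebra k C]

theorem Wsub_congr {m : ℕ} (τ : J → BA k Y) (x x' : Fin m → BA k Y) (v : Fin m → ℕ) (N : ℕ)
    (h : ∀ i, v i < N → x i = x' i) : Wsub τ x v N = Wsub τ x' v N := by
  have h1 : {b | ∃ (i : Fin m) (c : BA k Y), v i < N ∧ Hom zd (N - v i) c ∧ b = c * x i} =
      {b | ∃ (i : Fin m) (c : BA k Y), v i < N ∧ Hom zd (N - v i) c ∧ b = c * x' i} := by
    ext b
    constructor
    · rintro ⟨i, c, hi, hc, rfl⟩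
      exact ⟨i, c, hi, hc, by rw [h i hi]⟩
    · rintro ⟨i, c, hi, hc, rfl⟩
      exact ⟨i, c, hi, hc, by rw [h i hi]⟩
  rw [Wsub, Wsub, h1]

theorem mul_mem_Wsub {m : ℕ} (τ : J → BA k Y) (x : Fin m → BA k Y) (v : Fin m → ℕ) (N : ℕ)
    {a r : BA k Y} (ha : Hom zd 0 a)
    (hr : r ∈ Submodule.span k {b | ∃ (j : J) (e : BA k Y), Hom zd N e ∧ b = e * τ j}) :
    a * r ∈ Wsub τ x v N := by
  have h1 : Submodule.span k {b | ∃ (j : J) (e : BA k Y), Hom zd N e ∧ b = e * τ j} ≤
      (Wsub τ x v N).comap (LinearMap.mulLeft k a) := by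
    rw [Submodule.span_le]
    rintro b ⟨j, e, he, rfl⟩
    refine Submodule.subset_span (Or.inl ⟨j, a * e, ?_, ?_⟩)
    · simpa using Hom.mul (isAdd_zd Y) ha he
    · simp [mul_assoc]
  exact h1 hr

theorem caseOne (hl : LLStatement.{u}) (h1 : P1Statement.{u})
    (G : LieSubalgebra k (BA k Y)) (hG : GoodG G) (ψ : C →ₗ⁅k⁆ BA k Y) (hψ : ∀ c, ψ c ∈ G)
    (t : J → C) (ht : ∀ j, Hom zd 0 (ψ (t j)))
    (m : ℕ) (v : Fin m → ℕ) (N : ℕ) (hN : 1 ≤ N) (c : Fin m → C)
    (hgen : LieSubalgebra.lieSpan k C (Set.range t ∪ Set.range c) = ⊤)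
    (hdeg : ∀ i, degOf zd (ψ (c i)) = v i) (i : Fin m) (hvi : v i = N)
    (hxi : comp zd (v i) (ψ (c i)) ∈
      Wsub (fun j => ψ (t j)) (fun i => comp zd (v i) (ψ (c i))) v N) :
    ∃ c' : Fin m → C, LieSubalgebra.lieSpan k C (Set.range t ∪ Set.range c') = ⊤ ∧
      ∑ i, degOf zd (ψ (c' i)) < ∑ i, v i := by
  classical
  let a : J ⊕ {j : Fin m // v j < N} → C := Sum.elim t (fun j => c j)
  let w : J ⊕ {j : Fin m // v j < N} → ℕ := Sum.elim (fun _ => 0) (fun j => v j)
  let H : LieSubalgebra k (BA k Y) :=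
    LieSubalgebra.lieSpan k (BA k Y) (Set.range fun i => comp zd (w i) (ψ (a i)))
  have hHG : H ≤ G := by
    refine LieSubalgebra.lieSpan_le.2 ?_
    rintro _ ⟨i, rfl⟩
    exact hG.graded _ _ (hψ _)
  have hτH : ∀ j, ψ (t j) ∈ H := by
    intro j
    have h2 : comp zd (w (Sum.inl j)) (ψ (a (Sum.inl j))) ∈ H :=
      LieSubalgebra.subset_lieSpan ⟨Sum.inl j, rfl⟩
    have h3 : comp zd (w (Sum.inl j)) (ψ (a (Sum.inl j))) = ψ (t j) := comp_of_hom (ht j)
    rwa [h3] at h2
  have hxH : ∀ j, v j < N → comp zd (v j) (ψ (c j)) ∈ H := by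
    intro j hj
    exact LieSubalgebra.subset_lieSpan ⟨Sum.inr ⟨j, hj⟩, rfl⟩
  have hW : Wsub (fun j => ψ (t j)) (fun i => comp zd (v i) (ψ (c i))) v N ≤
      Submodule.restrictScalars k (Ideal.span (H : Set (BA k Y))) := by
    rw [Wsub, Submodule.span_le]
    rintro b (⟨j, e, -, rfl⟩ | ⟨j, e, hj, -, rfl⟩)
    · exact Ideal.mul_mem_left _ e (Ideal.subset_span (hτH j))
    · exact Ideal.mul_mem_left _ e (Ideal.subset_span (hxH j hj))
  have hxiH : comp zd (v i) (ψ (c i)) ∈ H :=
    h1 k _ G hG.env H hHG _ (hG.graded _ _ (hψ _)) (hW hxi)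
  obtain ⟨cs, hcs, hcomp, hle⟩ := hl k Y C (J ⊕ {j : Fin m // v j < N}) ψ a w (by
    rintro (j | j) y hy
    · exact le_of_eq (ht j y hy)
    · have := le_degOf zd hy
      change zd y ≤ degOf zd (ψ (c j)) at this
      rw [hdeg] at this
      exact this) N (comp zd (v i) (ψ (c i))) (by
        have := hom_comp zd (v i) (ψ (c i))
        rwa [hvi] at this ⊢) hxiH
  refine ⟨Function.update c i (c i - cs), ?_, ?_⟩
  · rw [eq_top_iff, ← hgen, LieSubalgebra.lieSpan_le]
    set S := LieSubalgebra.lieSpan k C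
      (Set.range t ∪ Set.range (Function.update c i (c i - cs))) with hS
    have ht' : ∀ j, t j ∈ S := fun j => LieSubalgebra.subset_lieSpan (Or.inl ⟨j, rfl⟩)
    have hc' : ∀ j, j ≠ i → c j ∈ S := by
      intro j hj
      refine LieSubalgebra.subset_lieSpan (Or.inr ⟨j, ?_⟩)
      rw [Function.update_of_ne hj]
    have hci : c i - cs ∈ S := by
      refine LieSubalgebra.subset_lieSpan (Or.inr ⟨i, ?_⟩)
      rw [Function.update_self]
    have hcsS : cs ∈ S := by
      have h2 : LieSubalgebra.lieSpan k C (Set.range a) ≤ S := by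
        refine LieSubalgebra.lieSpan_le.2 ?_
        rintro _ ⟨j | j, rfl⟩
        · exact ht' j
        · refine hc' j ?_
          rintro rfl
          exact absurd j.2 (by omega)
      exact h2 hcs
    rintro y (⟨j, rfl⟩ | ⟨j, rfl⟩)
    · exact ht' j
    · by_cases hj : j = i
      · subst hj
        have := S.add_mem hci hcsS
        simpa using this
      · exact hc' j hj
  · refine Finset.sum_lt_sum ?_ ⟨i, Finset.mem_univ _, ?_⟩
    · intro j _
      by_cases hj : j = i
      · subst hj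
        rw [Function.update_self, hvi]
        refine degOf_le fun y hy => ?_
        by_contra hlt
        apply hy
        have h2 : (ψ (c j)).coeff y = 0 := by
          by_contra h3
          have := le_degOf zd h3
          rw [hdeg, hvi] at this
          exact hlt this
        have h3 : (ψ cs).coeff y = 0 := by
          by_contra h3
          exact hlt (hle y h3)
        rw [map_sub]
        simp [h2, h3]
      · rw [Function.update_of_ne hj, hdeg]
    · rw [Function.update_self, hvi]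
      refine degOf_lt hN ?_ ?_
      · intro y hy
        by_contra hlt
        apply hy
        have h2 : (ψ (c i)).coeff y = 0 := by
          by_contra h3
          have := le_degOf zd h3
          rw [hdeg, hvi] at this
          exact hlt this
        have h3 : (ψ cs).coeff y = 0 := by
          by_contra h3
          exact hlt (hle y h3)
        rw [map_sub]
        simp [h2, h3]
      · rw [map_sub, map_sub, hcomp, hvi, sub_self]

theorem caseTwo (ha : ADStatement.{u}) (ψ : C →ₗ⁅k⁆ BA k Y)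
    (t : J → C) (ht : ∀ j, Hom zd 0 (ψ (t j)))
    (m : ℕ) (v : Fin m → ℕ) (N : ℕ) (c : Fin m → C)
    (hgen : LieSubalgebra.lieSpan k C (Set.range t ∪ Set.range c) = ⊤)
    (hdeg : ∀ i, degOf zd (ψ (c i)) = v i) (u : Fin m → FA k J)
    (hu : ∀ i, v i ≠ N → u i = 0)
    (hrel : ∑ i, ev (fun j => ψ (t j)) (u i) * comp zd (v i) (ψ (c i)) ∈
      Wsub (fun j => ψ (t j)) (fun i => comp zd (v i) (ψ (c i))) v N)
    (i0 : Fin m) (h : Fin m → FA k J) (hi0 : h i0 = 0) (hh : ∀ i, u i = 0 → h i = 0)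
    (hlt : dg (u i0 - ∑ i, u i * h i) < dg (u i0)) :
    ∃ c' : Fin m → C, LieSubalgebra.lieSpan k C (Set.range t ∪ Set.range c') = ⊤ ∧
      (∀ i, degOf zd (ψ (c' i)) ≤ v i) ∧
      ∃ u' : Fin m → FA k J, (∀ i, v i ≠ N → u' i = 0) ∧ (∃ i, u' i ≠ 0) ∧
        ∑ i, dg (u' i) < ∑ i, dg (u i) ∧
        ∑ i, ev (fun j => ψ (t j)) (u' i) * comp zd (v i) (ψ (c' i)) ∈
          Wsub (fun j => ψ (t j)) (fun i => comp zd (v i) (ψ (c' i))) v N := by
  classical
  set τ : J → BA k Y := fun j => ψ (t j) with hτ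
  have hui0 : u i0 ≠ 0 := dg_pos (lt_of_le_of_lt (Nat.zero_le _) hlt)
  have hvi0 : v i0 = N := by
    by_contra hne
    exact hui0 (hu i0 hne)
  have hhN : ∀ i, h i ≠ 0 → v i = N := by
    intro i hi
    by_contra hne
    exact hi (hh i (hu i hne))
  choose f hf1 hf2 using fun i => ha k Y C J ψ t ht (h i) (c i0)
  have hci0 : ∀ w, (ψ (c i0)).coeff w ≠ 0 → zd w ≤ N := by
    intro w hw
    have := le_degOf zd hw
    rwa [hdeg, hvi0] at this
  let d : Fin m → C := fun i => if h i = 0 then 0 else f i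
  have hd0 : ∀ i, h i = 0 → d i = 0 := fun i hi => if_pos hi
  have hd1 : ∀ i, h i ≠ 0 → d i = f i := fun i hi => if_neg hi
  have hdmem : ∀ i, d i ∈ LieSubalgebra.lieSpan k C (Set.range t ∪ {c i0}) := by
    intro i
    by_cases hi : h i = 0
    · rw [hd0 i hi]
      exact LieSubalgebra.zero_mem _
    · rw [hd1 i hi]
      exact hf1 i
  let x0 : BA k Y := comp zd N (ψ (c i0))
  let r : Fin m → BA k Y := fun i => comp zd N (ψ (d i)) - ev τ (h i) * x0
  have hr : ∀ i, r i ∈
      Submodule.span k {b | ∃ (j : J) (e : BA k Y), Hom zd N e ∧ b = e * τ j} := by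
    intro i
    by_cases hi : h i = 0
    · have : r i = 0 := by simp [r, hi, hd0 i hi]
      rw [this]
      exact Submodule.zero_mem _
    · have h2 := (hf2 i N hci0).2
      have h3 : r i = comp zd N (ψ (f i)) - ev τ (h i) * comp zd N (ψ (c i0)) := by
        simp only [r, x0, hd1 i hi]
      rw [h3]
      exact h2
  have hdle : ∀ i w, (ψ (d i)).coeff w ≠ 0 → zd w ≤ v i := by
    intro i w hw
    by_cases hi : h i = 0
    · rw [hd0 i hi] at hw
      simp at hw
    · rw [hd1 i hi] at hw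
      rw [hhN i hi]
      exact (hf2 i N hci0).1 w hw
  have hdi0 : d i0 = 0 := hd0 i0 hi0
  let c' : Fin m → C := fun i => c i + d i
  have hx' : ∀ i, comp zd (v i) (ψ (c' i)) =
      comp zd (v i) (ψ (c i)) + comp zd (v i) (ψ (d i)) := by
    intro i
    simp only [c', map_add]
  have hxlt : ∀ i, v i ≠ N → comp zd (v i) (ψ (c i)) = comp zd (v i) (ψ (c' i)) := by
    intro i hi
    have : h i = 0 := by
      by_contra hne
      exact hi (hhN i hne)
    simp only [c', hd0 i this, add_zero]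
  let s : FA k J := ∑ j, u j * h j
  let u' : Fin m → FA k J := fun i => u i - if i = i0 then s else 0
  refine ⟨c', ?_, ?_, u', ?_, ?_, ?_, ?_⟩
  · rw [eq_top_iff, ← hgen, LieSubalgebra.lieSpan_le]
    set S := LieSubalgebra.lieSpan k C (Set.range t ∪ Set.range c') with hS
    have ht' : ∀ j, t j ∈ S := fun j => LieSubalgebra.subset_lieSpan (Or.inl ⟨j, rfl⟩)
    have hc' : ∀ j, c j + d j ∈ S := fun j => LieSubalgebra.subset_lieSpan (Or.inr ⟨j, rfl⟩)
    have hc0 : c i0 ∈ S := by
      have := hc' i0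
      rwa [hdi0, add_zero] at this
    have h2 : LieSubalgebra.lieSpan k C (Set.range t ∪ {c i0}) ≤ S := by
      refine LieSubalgebra.lieSpan_le.2 ?_
      rintro y (⟨j, rfl⟩ | hy)
      · exact ht' j
      · rw [Set.mem_singleton_iff.1 hy]
        exact hc0
    rintro y (⟨j, rfl⟩ | ⟨j, rfl⟩)
    · exact ht' j
    · have := S.sub_mem (hc' j) (h2 (hdmem j))
      simpa using this
  · intro i
    refine degOf_le fun w hw => ?_
    by_contra hlt'
    apply hw
    have h2 : (ψ (c i)).coeff w = 0 := by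
      by_contra h3
      have := le_degOf zd h3
      rw [hdeg] at this
      exact hlt' this
    have h3 : (ψ (d i)).coeff w = 0 := by
      by_contra h3
      exact hlt' (hdle i w h3)
    simp only [c', map_add]
    simp [h2, h3]
  · intro i hi
    have h2 : i ≠ i0 := by
      rintro rfl
      exact hi hvi0
    simp only [u', if_neg h2, sub_zero]
    exact hu i hi
  · by_contra hall
    push Not at hall
    have h2 : ∀ i, i ≠ i0 → u i = 0 := by
      intro i hi
      have := hall i
      simpa only [u', if_neg hi, sub_zero] using this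
    have h3 : s = 0 := by
      refine Finset.sum_eq_zero fun j _ => ?_
      by_cases hj : j = i0
      · rw [hj, hi0, mul_zero]
      · rw [h2 j hj, zero_mul]
    have h4 := hall i0
    simp only [u', if_true, h3, sub_zero] at h4
    exact hui0 h4
  · refine Finset.sum_lt_sum ?_ ⟨i0, Finset.mem_univ _, ?_⟩
    · intro j _
      by_cases hj : j = i0
      · subst hj
        simp only [u', if_true]
        exact hlt.le
      · simp only [u', if_neg hj, sub_zero, le_refl]
    · simp only [u', if_true]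
      exact hlt
  · rw [← Wsub_congr τ (fun i => comp zd (v i) (ψ (c i))) (fun i => comp zd (v i) (ψ (c' i))) v N
      (fun i hi => hxlt i (ne_of_lt hi))]
    have hx'0 : comp zd (v i0) (ψ (c' i0)) = x0 := by
      simp only [c', hdi0, add_zero, hvi0, x0]
    have e1 : ∀ i, ev τ (u i) * comp zd (v i) (ψ (c' i)) =
        ev τ (u i) * comp zd (v i) (ψ (c i)) + ev τ (u i * h i) * x0 + ev τ (u i) * r i := by
      intro i
      by_cases hi : v i = N
      · rw [hx' i]
        simp only [r, hi, map_mul]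
        noncomm_ring
      · rw [hu i hi]
        simp
    have e2 : ∑ i, ev τ (u' i) * comp zd (v i) (ψ (c' i)) =
        ∑ i, ev τ (u i) * comp zd (v i) (ψ (c' i)) - ev τ s * x0 := by
      have e3 : ∀ i, ev τ (u' i) * comp zd (v i) (ψ (c' i)) =
          ev τ (u i) * comp zd (v i) (ψ (c' i)) -
            if i = i0 then ev τ s * x0 else 0 := by
        intro i
        by_cases hi : i = i0
        · subst hi
          simp only [u', if_true, map_sub, sub_mul, hx'0]
        · simp only [u', if_neg hi, sub_zero]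
      rw [Finset.sum_congr rfl fun i _ => e3 i, Finset.sum_sub_distrib, Finset.sum_ite_eq']
      simp
    have e4 : ∑ i, ev τ (u' i) * comp zd (v i) (ψ (c' i)) =
        ∑ i, ev τ (u i) * comp zd (v i) (ψ (c i)) + ∑ i, ev τ (u i) * r i := by
      rw [e2, Finset.sum_congr rfl fun i _ => e1 i, Finset.sum_add_distrib,
        Finset.sum_add_distrib, ← Finset.sum_mul, ← map_sum]
      abel
    rw [e4]
    refine Submodule.add_mem _ hrel (Submodule.sum_mem _ fun i _ => ?_)
    exact mul_mem_Wsub τ _ v N (hom_ev ht (u i)) (hr i)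

/-- The induction of module IN. -/
theorem core (h4 : S4Statement.{u}) (hl : LLStatement.{u}) (ha : ADStatement.{u}) (h1 : P1Statement.{u})
    (G : LieSubalgebra k (BA k Y)) (hG : GoodG G) (ψ : C →ₗ⁅k⁆ BA k Y) (hψ : ∀ c, ψ c ∈ G)
    (t : J → C) (ht : ∀ j, Hom zd 0 (ψ (t j))) (hfree : FreeFam k (fun j => ψ (t j)))
    (m : ℕ) (v : Fin m → ℕ) (hv : ∀ i, 1 ≤ v i) (N : ℕ) (hN : 1 ≤ N)
    (hmin : ∀ c' : Fin m → C, LieSubalgebra.lieSpan k C (Set.range t ∪ Set.range c') = ⊤ →
      ∑ i, v i ≤ ∑ i, degOf zd (ψ (c' i))) :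
    ∀ (n : ℕ) (c : Fin m → C), LieSubalgebra.lieSpan k C (Set.range t ∪ Set.range c) = ⊤ →
      (∀ i, degOf zd (ψ (c i)) = v i) → ∀ u : Fin m → FA k J, (∀ i, v i ≠ N → u i = 0) →
      (∃ i, u i ≠ 0) → ∑ i, dg (u i) = n →
      ∑ i, ev (fun j => ψ (t j)) (u i) * comp zd (v i) (ψ (c i)) ∈
        Wsub (fun j => ψ (t j)) (fun i => comp zd (v i) (ψ (c i))) v N → False := by
  intro n
  induction n using Nat.strong_induction_on with
  | _ n ih =>
  intro c hgen hdeg u hu hune hsum hrel
  rcases h4 k Y G hG J (fun j => ψ (t j)) (fun j => hψ _) ht hfree m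
    (fun i => comp zd (v i) (ψ (c i))) v hv (fun i => hom_comp _ _ _) N hN u hu hune hrel with
    ⟨i, hui, hxi⟩ | ⟨i0, h, hi0, hh, hlt⟩
  · have hvi : v i = N := by
      by_contra hne
      exact hui (hu i hne)
    obtain ⟨c', hc', hc'lt⟩ := caseOne hl h1 G hG ψ hψ t ht m v N hN c hgen hdeg i hvi hxi
    exact absurd (hmin c' hc') (not_le.2 hc'lt)
  · obtain ⟨c', hgen', hdeg', u', hu', hune', hlt', hrel'⟩ :=
      caseTwo ha ψ t ht m v N c hgen hdeg u hu hrel i0 h hi0 hh hlt
    by_cases hall : ∀ i, degOf zd (ψ (c' i)) = v i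
    · exact ih _ (hsum ▸ hlt') c' hgen' hall u' hu' hune' rfl hrel'
    · push Not at hall
      obtain ⟨i, hi⟩ := hall
      have h2 : ∑ i, degOf zd (ψ (c' i)) < ∑ i, v i :=
        Finset.sum_lt_sum (fun j _ => hdeg' j) ⟨i, Finset.mem_univ _, lt_of_le_of_ne (hdeg' i) hi⟩
      exact absurd (hmin c' hgen') (not_le.2 h2)

end main

/-- Module IN. -/
theorem inner (h3 : S3Statement.{u}) (h4 : S4Statement.{u}) (hl : LLStatement.{u}) (ha : ADStatement.{u})
    (h1 : P1Statement.{u}) : InnerStatement.{u} := by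
  intro k Y _ G hG C _ _ ψ hψ J t ht hfree m c hc hgen hmin
  by_contra hdep
  obtain ⟨N, hN, u, hu, hune, hrel⟩ := h3 k Y G hG J (fun j => ψ (t j)) (fun j => hψ _) ht hfree m
    (fun i => comp zd (degOf zd (ψ (c i))) (ψ (c i))) (fun i => degOf zd (ψ (c i))) hc
    (fun i => hG.graded _ _ (hψ _)) (fun i => hom_comp _ _ _) hdep
  exact core h4 hl ha h1 G hG ψ hψ t ht hfree m (fun i => degOf zd (ψ (c i))) hc N hN hmin _ c
    hgen (fun _ => rfl) u hu hune rfl hrel

end Pool.Agent.A55u.H66
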